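import Mathlib
import Pool.Agent.Q266.QEight3

set_option autoImplicit false

/-!
Q1 and Q2: `F_n(q)` is divisible by the Gaussian binomials `[2n, n]` and `[3n, n]`.
-/

namespace Pool.Agent.Results.MP_8a5308_nt.Divisibility

open Polynomial Finset

/-- The field of fractions of `ℤ[q]`. -/
abbrev K : Type := RatFunc ℤ

/-- The variable. -/
noncomputable abbrev q : K := RatFunc.X

/-- `(a; x)_m`. -/
noncomputable def poch (a x : K) (m : ℕ) : K := ∏ j ∈ range m, (1 - a * x ^ j)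

/-- `[m] = (1 - q^m)/(1 - q)`. -/
noncomputable def qint (m : ℕ) : K := (1 - q ^ m) / (1 - q)

/-- The Gaussian binomial coefficient. -/
noncomputable def gauss (m j : ℕ) : K := poch q q m / (poch q q j * poch q q (m - j))

/-- `R_{n,k}(q)`. -/
noncomputable def R (n k : ℕ) : K :=
  (poch (-q) q n / poch (-q) q k) ^ 4 * (poch (-q) q (2 * n) / poch (-q) q (2 * k)) ^ 2 *
    (poch (q ^ 2) (q ^ 2) k * poch (q ^ 6) (q ^ 6) n /
      (poch (q ^ 2) (q ^ 2) n * poch (q ^ 6) (q ^ 6) k)) ^ 2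

/-- `F_n(q)`. -/
noncomputable def F (n : ℕ) : K :=
  ∑ k ∈ range (n + 1), qint (8 * k + 1) * q ^ (2 * k ^ 2) * gauss (4 * k) (2 * k) *
    gauss (2 * k) k ^ 2 * R n k

/-- For every `n ≥ 1` the polynomial `F_n(q)` is divisible in `ℤ[q]` by the Gaussian binomial
coefficients `[2n, n]` and `[3n, n]`. -/
theorem result : ∀ n : ℕ, 1 ≤ n → ∃ A B C : ℤ[X],
    algebraMap ℤ[X] K A = F n ∧ algebraMap ℤ[X] K B = gauss (2 * n) n ∧
      algebraMap ℤ[X] K C = gauss (3 * n) n ∧ B ∣ A ∧ C ∣ A := by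
  intro n _
  refine ⟨Q266.QEight.FP n, Q266.QVal.gaussP (2 * n) n, Q266.QVal.gaussP (3 * n) n,
    ?_, ?_, ?_, (Q266.QEight.main n).1, (Q266.QEight.main n).2⟩
  · exact Q266.QEight.FP_eq n
  · exact Q266.QVal.gaussP_eq (2 * n) n (by omega)
  · exact Q266.QVal.gaussP_eq (3 * n) n (by omega)

end Pool.Agent.Results.MP_8a5308_nt.Divisibility
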